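import Mathlib
import Pool.Agent.Lib.MP_eed1a0_lc.Universal

/-!
# No search-to-profile reduction for Kolmogorov complexity

Negative answer to the question whether, for all `k, m ≥ 1`, some probabilistic polynomial-time
algorithm finds, from strings `x₁, …, x_k` and the complexity profile of
`(x₁, …, x_k, y₁, …, y_m)`, strings `y₁', …, y_m'` such that the profile of
`(x₁, …, x_k, y₁', …, y_m')` is within `c · log n` of the given one.

The definitions are in `Pool.Agent.Lib.MP_eed1a0_lc.Defs`. Optimal decompressors exist
(`Pool.Agent.Lib.MP_eed1a0_lc.exists_isOptimal`), so the hypotheses of the theorem can be met.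

Idea of the proof: given a randomized algorithm, an exhaustive search finds two computable
encodings `s, t` of pairs (label, index), affine modulo a prime, that look pairwise independent to
the algorithm. The label `a` is then common information of `x₁ = s(a, b)` and `x₂ = t(a, c)`, and a
second-moment argument shows that whatever the algorithm outputs with noticeable probability on
the pairs with a given label is either not simple given `x₁` and given `x₂`, or is one of few
outputs that are popular over all pairs and hence has small complexity.
-/

namespace Pool.Agent.Results.MP_eed1a0_lc.NoSearchToProfile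

open Pool.Agent.Lib.MP_eed1a0_lc

/-- For every optimal decompressor `U` and every computable injective pairing `pr`, for all
`k ≥ 2` and `m ≥ 1`, for every randomized algorithm `M` (that always halts; no bound on its running
time is needed) and for all constants `c`, `δ > 0`, `e` and `N`, there are tuples `x` of `k` strings
and `y` of `m` strings, of total length `n ≥ N`, such that `M`, given `x`, the complexity profile of
`(x, y)` and `n`, outputs with probability less than `δ / n ^ e` a tuple `y'` for which the profile
of `(x, y')` is within `c · log n` of the profile of `(x, y)`. -/
theorem result
    (U : List Bool →. List Bool) (hU : IsOptimal U)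
    (pr : List Bool → List Bool → List Bool) (hpr : Computable₂ pr)
    (hinj : ∀ a b a' b' : List Bool, pr a b = pr a' b' → a = a' ∧ b = b')
    (k m : ℕ) (hk : 2 ≤ k) (hm : 1 ≤ m)
    (M : RandAlg) (c δ : ℝ) (hδ : 0 < δ) (e N : ℕ) :
    ∃ x y : List (List Bool), x.length = k ∧ y.length = m ∧ N ≤ totalLength (x ++ y) ∧
      successProb U pr M c x y < δ / (totalLength (x ++ y) : ℝ) ^ e :=
  main hU hpr hinj k m hk hm M c δ hδ e N

end Pool.Agent.Results.MP_eed1a0_lc.NoSearchToProfile
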